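import Pool.Agent.Helper12.MA.StA

/-!
# Project MA, module WHE: crossing sets on the rim of a wheel
-/

set_option autoImplicit false

namespace Pool.Agent.Helper68.MA

open Pool.Agent.Helper12.MA
open Pool.Agent.Helper51.AJ (IsMinor Planar Apex ExMinor Con Tch)
open Pool.Agent.Helper12.NK (rst Kc add cnt Pcy IsFace Cof plus)

private theorem con_chain {α : Type} (H : SimpleGraph α) (g : ℕ → α) (a b : ℕ) (hab : a < b)
    (h : ∀ n, a ≤ n → n + 1 < b → H.Adj (g n) (g (n + 1))) :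
    Con H {v | ∃ n, a ≤ n ∧ n < b ∧ v = g n} := by
  have hmem : ∀ n, a ≤ n → n < b → g n ∈ {v | ∃ n, a ≤ n ∧ n < b ∧ v = g n} :=
    fun n h1 h2 => ⟨n, h1, h2, rfl⟩
  have key : ∀ n (h1 : a ≤ n) (h2 : n < b),
      (H.induce {v | ∃ n, a ≤ n ∧ n < b ∧ v = g n}).Reachable ⟨g a, hmem a le_rfl hab⟩ ⟨g n, hmem n h1 h2⟩ := by
    intro n
    induction n with
    | zero =>
      intro h1 h2
      have : a = 0 := by omega
      subst this
      exact SimpleGraph.Reachable.refl _
    | succ n ih =>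
      intro h1 h2
      rcases Nat.lt_or_ge n a with h3 | h3
      · have : a = n + 1 := by omega
        subst this
        exact SimpleGraph.Reachable.refl _
      · refine (ih h3 (by omega)).trans ?_
        apply SimpleGraph.Adj.reachable
        exact h n h3 h2
  haveI : Nonempty {v | ∃ n, a ≤ n ∧ n < b ∧ v = g n} := ⟨⟨g a, hmem a le_rfl hab⟩⟩
  refine ⟨fun x y => ?_⟩
  obtain ⟨x, n, h1, h2, rfl⟩ := x
  obtain ⟨y, n', h1', h2', rfl⟩ := y
  exact (key n h1 h2).symm.trans (key n' h1' h2')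

private theorem con_un {α : Type} (H : SimpleGraph α) (S T : Set α) (hS : Con H S) (hT : Con H T) (x : α)
    (hx : x ∈ S) (hy : x ∈ T) : Con H (S ∪ T) := by
  haveI : Nonempty (S ∪ T : Set α) := ⟨⟨x, Or.inl hx⟩⟩
  have mono : ∀ (A : Set α) (hA : A ⊆ S ∪ T) (u v : A), (H.induce A).Reachable u v →
      (H.induce (S ∪ T)).Reachable ⟨u.1, hA u.2⟩ ⟨v.1, hA v.2⟩ := by
    intro A hA u v huv
    exact huv.map (SimpleGraph.induceHomOfLE H hA).toHom
  have k1 : ∀ y : (S ∪ T : Set α), (H.induce (S ∪ T)).Reachable ⟨x, Or.inl hx⟩ y := by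
    rintro ⟨y, hy' | hy'⟩
    · exact mono S Set.subset_union_left ⟨x, hx⟩ ⟨y, hy'⟩ (hS.preconnected _ _)
    · exact mono T Set.subset_union_right ⟨x, hy⟩ ⟨y, hy'⟩ (hT.preconnected _ _)
  exact ⟨fun u v => (k1 u).symm.trans (k1 v)⟩

private theorem con_sing {α : Type} (H : SimpleGraph α) (x : α) : Con H {x} := by
  haveI : Nonempty ({x} : Set α) := ⟨⟨x, rfl⟩⟩
  refine ⟨fun u v => ?_⟩
  obtain ⟨u, hu⟩ := u
  obtain ⟨v, hv⟩ := v
  have h1 : u = x := hu
  have h2 : v = x := hv
  subst h1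
  subst h2
  exact SimpleGraph.Reachable.refl _

/-- a chain inside `K` of length `l` from `a` to `b` -/
private def Ch {α : Type} (H : SimpleGraph α) (K : Set α) (a b : α) (l : ℕ) (f : ℕ → α) : Prop :=
  f 0 = a ∧ f l = b ∧ (∀ j < l, H.Adj (f j) (f (j + 1))) ∧ ∀ j ≤ l, f j ∈ K

private theorem ch_take {α : Type} {H : SimpleGraph α} {K : Set α} {a b : α} {l : ℕ} {f : ℕ → α}
    (h : Ch H K a b l f) (j : ℕ) (hj : j ≤ l) : Ch H K a (f j) j f :=
  ⟨h.1, rfl, fun n hn => h.2.2.1 n (by omega), fun n hn => h.2.2.2 n (by omega)⟩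

private theorem ch_drop {α : Type} {H : SimpleGraph α} {K : Set α} {a b : α} {l : ℕ} {f : ℕ → α}
    (h : Ch H K a b l f) (j : ℕ) (hj : j ≤ l) : Ch H K (f j) b (l - j) (fun n => f (j + n)) := by
  refine ⟨rfl, ?_, fun n hn => ?_, fun n hn => h.2.2.2 _ (by omega)⟩
  · change f (j + (l - j)) = b
    rw [Nat.add_sub_cancel' hj]
    exact h.2.1
  · have := h.2.2.1 (j + n) (by omega)
    simpa [add_assoc] using this

private theorem ch_rev {α : Type} {H : SimpleGraph α} {K : Set α} {a b : α} {l : ℕ} {f : ℕ → α}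
    (h : Ch H K a b l f) : Ch H K b a l (fun n => f (l - n)) := by
  refine ⟨?_, ?_, fun n hn => ?_, fun n hn => h.2.2.2 _ (by omega)⟩
  · simpa using h.2.1
  · simpa using h.1
  · have := h.2.2.1 (l - (n + 1)) (by omega)
    have e : l - (n + 1) + 1 = l - n := by omega
    rw [e] at this
    exact this.symm

private theorem ch_of_con {α : Type} (H : SimpleGraph α) (K : Set α) (hK : Con H K) (a b : α) (ha : a ∈ K)
    (hb : b ∈ K) : ∃ l f, Ch H K a b l f := by
  obtain ⟨p⟩ := hK.preconnected ⟨a, ha⟩ ⟨b, hb⟩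
  refine ⟨p.length, fun j => (p.getVert j).1, ?_, ?_, ?_, ?_⟩
  · simp
  · simp
  · intro j hj
    have := p.adj_getVert_succ hj
    exact this
  · intro j _
    exact (p.getVert j).2

private theorem tch_symm {α : Type} {H : SimpleGraph α} {S T : Set α} (h : Tch H S T) : Tch H T S := by
  obtain ⟨x, hx, y, hy, h⟩ := h
  exact ⟨y, hy, x, hx, h.symm⟩

private theorem base {α : Type} (H : SimpleGraph α) (m : ℕ) (c : ZMod m → α) (z : α) (hP : Planar H) (hm : 4 ≤ m)
    (hc : Function.Injective c) (hz : ∀ i, c i ≠ z) (hcc : ∀ i, H.Adj (c i) (c (i + 1)))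
    (hzc : ∀ i, H.Adj z (c i)) (K L : Set α) (hKL : Disjoint K L) (hzK : z ∉ K) (hzL : z ∉ L)
    (i : ZMod m) (r s t : ℕ) (h0 : 0 < r) (h1 : r < s) (h2 : s < t) (h3 : t < m) (l l' : ℕ) (f g : ℕ → α)
    (hf : Ch H K (c i) (c (i + s)) l f) (hg : Ch H L (c (i + r)) (c (i + t)) l' g)
    (nf : ∀ j, 0 < j → j < l → ∀ q : ℕ, q < m → f j ≠ c (i + q))
    (ng : ∀ j, 0 < j → j < l' → ∀ q : ℕ, q < m → g j ≠ c (i + q)) : False := by
  have inj : ∀ n n' : ℕ, n < m → n' < m → c (i + n) = c (i + n') → n = n' := by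
    intro n n' hn hn' h
    have h4 := add_left_cancel (hc h)
    have h5 := (ZMod.natCast_eq_natCast_iff' n n' m).1 h4
    rwa [Nat.mod_eq_of_lt hn, Nat.mod_eq_of_lt hn'] at h5
  have ci : c i = c (i + (0 : ℕ)) := by simp
  have lpos : 0 < l := by
    rcases Nat.eq_zero_or_pos l with h | h
    · subst h
      have h4 : c i = c (i + s) := hf.1.symm.trans hf.2.1
      rw [ci] at h4
      have := inj 0 s (by omega) (by omega) h4
      omega
    · exact h
  have lpos' : 0 < l' := by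
    rcases Nat.eq_zero_or_pos l' with h | h
    · subst h
      have h4 : c (i + r) = c (i + t) := hg.1.symm.trans hg.2.1
      have := inj r t (by omega) (by omega) h4
      omega
    · exact h
  have step : ∀ n : ℕ, H.Adj (c (i + n)) (c (i + (n + 1 : ℕ))) := by
    intro n
    have := hcc (i + n)
    rwa [add_assoc, ← Nat.cast_succ] at this
  set Ar : ℕ → ℕ → Set α := fun a b => {v | ∃ n : ℕ, a ≤ n ∧ n < b ∧ v = c (i + n)} with hAr
  set Kp : Set α := {v | ∃ n : ℕ, 0 ≤ n ∧ n < l ∧ v = f n} with hKp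
  set Lp : Set α := {v | ∃ n : ℕ, 0 ≤ n ∧ n < l' ∧ v = g n} with hLp
  have cA : ∀ a b : ℕ, a < b → Con H (Ar a b) := fun a b hab =>
    con_chain H (fun n : ℕ => c (i + n)) a b hab (fun n _ _ => step n)
  have cK : Con H Kp := con_chain H f 0 l lpos (fun n _ h => hf.2.2.1 n (by omega))
  have cL : Con H Lp := con_chain H g 0 l' lpos' (fun n _ h => hg.2.2.1 n (by omega))
  have KpK : ∀ v ∈ Kp, v ∈ K := by
    rintro v ⟨n, _, hn, rfl⟩
    exact hf.2.2.2 n hn.le
  have LpL : ∀ v ∈ Lp, v ∈ L := by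
    rintro v ⟨n, _, hn, rfl⟩
    exact hg.2.2.2 n hn.le
  have dAA : ∀ a b a' b' : ℕ, b ≤ a' → b' ≤ m → Disjoint (Ar a b) (Ar a' b') := by
    intro a b a' b' hb hb'
    rw [Set.disjoint_left]
    rintro v ⟨n, hn1, hn2, rfl⟩ ⟨n', hn1', hn2', h⟩
    have := inj n n' (by omega) (by omega) h
    omega
  have dKA : ∀ a b : ℕ, 0 < a → b ≤ m → Disjoint Kp (Ar a b) := by
    intro a b ha hb
    rw [Set.disjoint_left]
    rintro v ⟨j, _, hj, rfl⟩ ⟨n, hn1, hn2, h⟩
    rcases Nat.eq_zero_or_pos j with hj0 | hj0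
    · subst hj0
      rw [hf.1, ci] at h
      have := inj 0 n (by omega) (by omega) h
      omega
    · exact nf j hj0 hj n (by omega) h
  have dLA : ∀ a b : ℕ, (∀ n, a ≤ n → n < b → n ≠ r) → b ≤ m → Disjoint Lp (Ar a b) := by
    intro a b hr hb
    rw [Set.disjoint_left]
    rintro v ⟨j, _, hj, rfl⟩ ⟨n, hn1, hn2, h⟩
    rcases Nat.eq_zero_or_pos j with hj0 | hj0
    · subst hj0
      rw [hg.1] at h
      have := inj r n (by omega) (by omega) h
      exact hr n hn1 hn2 this.symm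
    · exact ng j hj0 hj n (by omega) h
  have dKL : Disjoint Kp Lp := by
    rw [Set.disjoint_left]
    intro v hv hv'
    exact Set.disjoint_left.1 hKL (KpK v hv) (LpL v hv')
  have dzA : ∀ a b : ℕ, Disjoint ({z} : Set α) (Ar a b) := by
    intro a b
    rw [Set.disjoint_left]
    rintro v hv ⟨n, _, _, h⟩
    have : v = z := hv
    exact hz _ (h.symm.trans this)
  have dzK : Disjoint ({z} : Set α) Kp := by
    rw [Set.disjoint_left]
    rintro v hv h
    have : v = z := hv
    subst this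
    exact hzK (KpK _ h)
  have dzL : Disjoint ({z} : Set α) Lp := by
    rw [Set.disjoint_left]
    rintro v hv h
    have : v = z := hv
    subst this
    exact hzL (LpL _ h)
  -- touching
  have tz : ∀ a b : ℕ, a < b → ∀ S : Set α, Ar a b ⊆ S → Tch H {z} S := by
    intro a b hab S hS
    exact ⟨z, rfl, c (i + a), hS ⟨a, le_rfl, hab, rfl⟩, hzc _⟩
  have tAA : ∀ a b d : ℕ, a < b → b < d → ∀ S T : Set α, Ar a b ⊆ S → Ar b d ⊆ T → Tch H S T := by
    intro a b d hab hbd S T hS hT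
    refine ⟨c (i + (b - 1 : ℕ)), hS ⟨b - 1, by omega, by omega, rfl⟩, c (i + b), hT ⟨b, le_rfl, hbd, rfl⟩, ?_⟩
    have := step (b - 1)
    rwa [Nat.sub_add_cancel (by omega)] at this
  have tLast : ∀ S T : Set α, Ar t m ⊆ S → Ar 0 r ⊆ T → Tch H T S := by
    intro S T hS hT
    refine ⟨c i, hT ⟨0, le_rfl, h0, ci⟩, c (i + (m - 1 : ℕ)), hS ⟨m - 1, by omega, by omega, rfl⟩, ?_⟩
    have := step (m - 1)
    rw [Nat.sub_add_cancel (by omega : 1 ≤ m)] at this
    rw [ZMod.natCast_self, add_zero] at this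
    exact this.symm
  have tK : ∀ S T : Set α, Kp ⊆ S → Ar s t ⊆ T → Tch H S T := by
    intro S T hS hT
    refine ⟨f (l - 1), hS ⟨l - 1, by omega, by omega, rfl⟩, c (i + s), hT ⟨s, le_rfl, h2, rfl⟩, ?_⟩
    have := hf.2.2.1 (l - 1) (by omega)
    rw [Nat.sub_add_cancel (by omega : 1 ≤ l), hf.2.1] at this
    exact this
  have tL : ∀ S T : Set α, Lp ⊆ S → Ar t m ⊆ T → Tch H S T := by
    intro S T hS hT
    refine ⟨g (l' - 1), hS ⟨l' - 1, by omega, by omega, rfl⟩, c (i + t), hT ⟨t, le_rfl, h3, rfl⟩, ?_⟩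
    have := hg.2.2.1 (l' - 1) (by omega)
    rw [Nat.sub_add_cancel (by omega : 1 ≤ l'), hg.2.1] at this
    exact this
  have c1 : Con H (Ar 0 r ∪ Kp) := con_un H _ _ (cA 0 r h0) cK (c i) ⟨0, le_rfl, h0, ci⟩
    ⟨0, le_rfl, lpos, hf.1.symm⟩
  have c2 : Con H (Ar r s ∪ Lp) := con_un H _ _ (cA r s h1) cL (c (i + r)) ⟨r, le_rfl, h1, rfl⟩
    ⟨0, le_rfl, lpos', hg.1.symm⟩
  -- the branch sets
  let A : Fin 5 → Set α := ![{z}, Ar 0 r ∪ Kp, Ar r s ∪ Lp, Ar s t, Ar t m]
  have hcon : ∀ j, (H.induce (A j)).Connected := by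
    intro j
    fin_cases j
    · exact con_sing H z
    · exact c1
    · exact c2
    · exact cA s t h2
    · exact cA t m h3
  have d01 : Disjoint ({z} : Set α) (Ar 0 r ∪ Kp) := Set.disjoint_union_right.2 ⟨dzA _ _, dzK⟩
  have d02 : Disjoint ({z} : Set α) (Ar r s ∪ Lp) := Set.disjoint_union_right.2 ⟨dzA _ _, dzL⟩
  have d03 := dzA s t
  have d04 := dzA t m
  have d12 : Disjoint (Ar 0 r ∪ Kp) (Ar r s ∪ Lp) := by
    rw [Set.disjoint_union_left, Set.disjoint_union_right, Set.disjoint_union_right]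
    exact ⟨⟨dAA 0 r r s le_rfl (by omega), (dLA 0 r (fun n _ h => by omega) (by omega)).symm⟩,
      ⟨dKA r s h0 (by omega), dKL⟩⟩
  have d13 : Disjoint (Ar 0 r ∪ Kp) (Ar s t) :=
    Set.disjoint_union_left.2 ⟨dAA 0 r s t (by omega) (by omega), dKA s t (by omega) (by omega)⟩
  have d14 : Disjoint (Ar 0 r ∪ Kp) (Ar t m) :=
    Set.disjoint_union_left.2 ⟨dAA 0 r t m (by omega) le_rfl, dKA t m (by omega) le_rfl⟩
  have d23 : Disjoint (Ar r s ∪ Lp) (Ar s t) :=
    Set.disjoint_union_left.2 ⟨dAA r s s t le_rfl (by omega), dLA s t (fun n h _ => by omega) (by omega)⟩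
  have d24 : Disjoint (Ar r s ∪ Lp) (Ar t m) :=
    Set.disjoint_union_left.2 ⟨dAA r s t m (by omega) le_rfl, dLA t m (fun n h _ => by omega) le_rfl⟩
  have d34 : Disjoint (Ar s t) (Ar t m) := dAA s t t m le_rfl le_rfl
  have hdis : ∀ j j' : Fin 5, j ≠ j' → Disjoint (A j) (A j') := by
    intro j j' hj
    fin_cases j <;> fin_cases j' <;>
      first
        | exact absurd rfl hj
        | exact d01 | exact d02 | exact d03 | exact d04 | exact d12 | exact d13 | exact d14 | exact d23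
        | exact d24 | exact d34 | exact d01.symm | exact d02.symm | exact d03.symm | exact d04.symm
        | exact d12.symm | exact d13.symm | exact d14.symm | exact d23.symm | exact d24.symm | exact d34.symm
  have t01 : Tch H {z} (Ar 0 r ∪ Kp) := tz 0 r h0 _ Set.subset_union_left
  have t02 : Tch H {z} (Ar r s ∪ Lp) := tz r s h1 _ Set.subset_union_left
  have t03 : Tch H {z} (Ar s t) := tz s t h2 _ subset_rfl
  have t04 : Tch H {z} (Ar t m) := tz t m h3 _ subset_rfl
  have t12 : Tch H (Ar 0 r ∪ Kp) (Ar r s ∪ Lp) := tAA 0 r s h0 h1 _ _ Set.subset_union_left Set.subset_union_left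
  have t13 : Tch H (Ar 0 r ∪ Kp) (Ar s t) := tK _ _ Set.subset_union_right subset_rfl
  have t14 : Tch H (Ar 0 r ∪ Kp) (Ar t m) := tLast _ _ subset_rfl Set.subset_union_left
  have t23 : Tch H (Ar r s ∪ Lp) (Ar s t) := tAA r s t h1 h2 _ _ Set.subset_union_left subset_rfl
  have t24 : Tch H (Ar r s ∪ Lp) (Ar t m) := tL _ _ Set.subset_union_right subset_rfl
  have t34 : Tch H (Ar s t) (Ar t m) := tAA s t m h2 h3 _ _ subset_rfl subset_rfl
  have htch : ∀ j j' : Fin 5, j ≠ j' → Tch H (A j) (A j') := by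
    intro j j' hj
    fin_cases j <;> fin_cases j' <;>
      first
        | exact absurd rfl hj
        | exact t01 | exact t02 | exact t03 | exact t04 | exact t12 | exact t13 | exact t14 | exact t23
        | exact t24 | exact t34 | exact tch_symm t01 | exact tch_symm t02 | exact tch_symm t03
        | exact tch_symm t04 | exact tch_symm t12 | exact tch_symm t13 | exact tch_symm t14
        | exact tch_symm t23 | exact tch_symm t24 | exact tch_symm t34
  exact hP.1 ⟨A, hcon, hdis, fun w w' h => htch w w' (SimpleGraph.top_adj w w' |>.1 h)⟩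

private theorem cst (m : ℕ) (i : ZMod m) (a b : ℕ) (h : a ≤ b) :
    i + (a : ZMod m) + ((b - a : ℕ) : ZMod m) = i + (b : ZMod m) := by
  rw [add_assoc, ← Nat.cast_add, Nat.add_sub_cancel' h]

private theorem main {α : Type} (H : SimpleGraph α) (m : ℕ) (c : ZMod m → α) (z : α) (hP : Planar H) (hm : 4 ≤ m)
    (hc : Function.Injective c) (hz : ∀ i, c i ≠ z) (hcc : ∀ i, H.Adj (c i) (c (i + 1)))
    (hzc : ∀ i, H.Adj z (c i)) : ∀ (N : ℕ) (K L : Set α), Disjoint K L → z ∉ K → z ∉ L →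
    ∀ (i : ZMod m) (r s t : ℕ), 0 < r → r < s → s < t → t < m → ∀ (l l' : ℕ) (f g : ℕ → α),
    Ch H K (c i) (c (i + s)) l f → Ch H L (c (i + r)) (c (i + t)) l' g → l + l' = N → False := by
  intro N
  induction N using Nat.strong_induction_on with
  | _ N ih =>
  intro K L hKL hzK hzL i r s t h0 h1 h2 h3 l l' f g hf hg hN
  by_cases hA : ∃ j, 0 < j ∧ j < l ∧ ∃ q : ℕ, q < m ∧ f j = c (i + q)
  · obtain ⟨j, hj0, hjl, q, hq, hfq⟩ := hA
    have hqK : c (i + q) ∈ K := hfq ▸ hf.2.2.2 j hjl.le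
    have hrL : c (i + r) ∈ L := hg.1 ▸ hg.2.2.2 0 (Nat.zero_le _)
    have htL : c (i + t) ∈ L := hg.2.1 ▸ hg.2.2.2 l' le_rfl
    have hqr : q ≠ r := by
      rintro rfl
      exact Set.disjoint_left.1 hKL hqK hrL
    have hqt : q ≠ t := by
      rintro rfl
      exact Set.disjoint_left.1 hKL hqK htL
    rcases lt_trichotomy q r with h4 | h4 | h4
    · -- drop
      have hd := ch_drop hf j hjl.le
      rw [hfq] at hd
      refine ih ((l - j) + l') (by omega) K L hKL hzK hzL (i + q) (r - q) (s - q) (t - q) (by omega) (by omega)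
        (by omega) (by omega) (l - j) l' (fun n => f (j + n)) g ?_ ?_ rfl
      · rw [cst m i q s (by omega)]
        exact hd
      · rw [cst m i q r (by omega), cst m i q t (by omega)]
        exact hg
    · exact absurd h4 hqr
    · rcases lt_trichotomy q t with h5 | h5 | h5
      · have hd := ch_take hf j hjl.le
        rw [hfq] at hd
        exact ih (j + l') (by omega) K L hKL hzK hzL i r q t h0 h4 h5 h3 j l' f g hd hg rfl
      · exact absurd h5 hqt
      · have hd := ch_rev (ch_drop hf j hjl.le)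
        rw [hfq] at hd
        refine ih (l' + (l - j)) (by omega) L K hKL.symm hzL hzK (i + r) (s - r) (t - r) (q - r) (by omega)
          (by omega) (by omega) (by omega) l' (l - j) g (fun n => f (j + (l - j - n))) ?_ ?_ rfl
        · rw [cst m i r t (by omega)]
          exact hg
        · rw [cst m i r s (by omega), cst m i r q (by omega)]
          exact hd
  · by_cases hB : ∃ j, 0 < j ∧ j < l' ∧ ∃ q : ℕ, q < m ∧ g j = c (i + q)
    · obtain ⟨j, hj0, hjl, q, hq, hgq⟩ := hB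
      have hqL : c (i + q) ∈ L := hgq ▸ hg.2.2.2 j hjl.le
      have hiK : c i ∈ K := hf.1 ▸ hf.2.2.2 0 (Nat.zero_le _)
      have hsK : c (i + s) ∈ K := hf.2.1 ▸ hf.2.2.2 l le_rfl
      have hq0 : q ≠ 0 := by
        rintro rfl
        have : c (i + (0 : ℕ)) = c i := by simp
        rw [this] at hqL
        exact Set.disjoint_left.1 hKL hiK hqL
      have hqs : q ≠ s := by
        rintro rfl
        exact Set.disjoint_left.1 hKL hsK hqL
      rcases lt_trichotomy q s with h4 | h4 | h4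
      · have hd := ch_drop hg j hjl.le
        rw [hgq] at hd
        exact ih (l + (l' - j)) (by omega) K L hKL hzK hzL i q s t (by omega) h4 h2 h3 l (l' - j) f
          (fun n => g (j + n)) hf hd rfl
      · exact absurd h4 hqs
      · have hd := ch_take hg j hjl.le
        rw [hgq] at hd
        exact ih (l + j) (by omega) K L hKL hzK hzL i r s q h0 h1 h4 hq l j f g hf hd rfl
    · refine base H m c z hP hm hc hz hcc hzc K L hKL hzK hzL i r s t h0 h1 h2 h3 l l' f g hf hg ?_ ?_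
      · intro j hj0 hj q hq h
        exact hA ⟨j, hj0, hj, q, hq, h⟩
      · intro j hj0 hj q hq h
        exact hB ⟨j, hj0, hj, q, hq, h⟩

theorem hWHE : StWHE := by
  intro α H m c z K L hP hm hc hz hcc hzc hK hL hKL hzK hzL
  rintro ⟨i, r, s, t, h0, h1, h2, h3, k0, k1, k2, k3⟩
  obtain ⟨l, f, hf⟩ := ch_of_con H K hK _ _ k0 k2
  obtain ⟨l', g, hg⟩ := ch_of_con H L hL _ _ k1 k3
  exact main H m c z hP hm hc hz hcc hzc (l + l') K L hKL hzK hzL i r s t h0 h1 h2 h3 l l' f g hf hg rfl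

end Pool.Agent.Helper68.MA
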